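import Pool.Agent.MP_ca614b_pr.H61.Main

set_option autoImplicit false

open MeasureTheory Pool.Agent.MP_ca614b_pr.H61

/-- The g₃ term equals an explicit function of θ, the fourth moments, m, n and a, up to an error
of relative order (min m n)^(-1/2) against 1/(m n²) + 1/(m² n). -/
theorem Pool.Agent.Results.MP_ca614b_pr.G3Asymp.result (F : Fin 3 → Measure ℝ)
    [∀ k, IsProbabilityMeasure (F k)] (θ κ : Fin 3 → ℝ) (hθ : ∀ k, 0 < θ k)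
    (h8 : ∀ k, Integrable (fun x : ℝ => x ^ 8) (F k)) (hmean : ∀ k, ∫ x, x ∂F k = 0)
    (hvar : ∀ k, ∫ x, x ^ 2 ∂F k = θ k) (hκ : ∀ k, ∫ x, x ^ 4 ∂F k = κ k) :
    ∃ K : ℝ, ∀ (μ : ℝ) (m n : ℕ), 2 ≤ m → 2 ≤ n →
      ∀ (a₀ : ℝ) (a₁ : Fin m → ℝ) (a₂ : Fin n → ℝ),
        (info m n F μ θ).det ≠ 0 ∧
        Integrable (fun ω => hAb F μ θ a₀ a₁ a₂ ω ^ 2) (law m n F) ∧
        |∫ ω, hAb F μ θ a₀ a₁ a₂ ω ^ 2 ∂law m n F - sfun θ κ a₁ a₂| ≤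
          K * (∑ i, a₁ i ^ 2 + ∑ j, a₂ j ^ 2) * (1 / (m * n ^ 2) + 1 / (m ^ 2 * n))
            / √(min m n : ℕ) := by
  have hm8 : ∀ k, MemLp (fun x : ℝ => x) (8 : ℕ) (F k) := fun k => by
    rw [← integrable_norm_rpow_iff (f := fun x : ℝ => x) aestronglyMeasurable_id (by simp) (by simp)]
    have e : Even 8 := by decide
    simpa only [ENNReal.toReal_natCast, Real.rpow_natCast, Real.norm_eq_abs, e.pow_abs] using h8 k
  set B : ℝ := 1 + ∑ k, lpNorm (fun x : ℝ => x) (8 : ℕ) (F k) with hB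
  have hs : ∀ k, lpNorm (fun x : ℝ => x) (8 : ℕ) (F k) ≤
      ∑ k, lpNorm (fun x : ℝ => x) (8 : ℕ) (F k) := fun k =>
    Finset.single_le_sum (f := fun k => lpNorm (fun x : ℝ => x) (8 : ℕ) (F k))
      (fun _ _ => lpNorm_nonneg) (Finset.mem_univ k)
  have hB1 : 1 ≤ B := by have := lpNorm_nonneg.trans (hs 0); linarith
  have L : ∀ k, Law (F k) (θ k) B := fun k =>
    ⟨⟨hm8 k, by have := hs k; linarith⟩,
      ⟨by simpa using integrable_pow (k := 1) (hm8 k) (by norm_num), hmean k⟩,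
      ⟨integrable_pow (hm8 k) (by norm_num), hvar k⟩⟩
  set c : ℝ := 1 + (θ 1)⁻¹ + (θ 2)⁻¹ with hc
  have i1 := inv_pos.2 (hθ 1)
  have i2 := inv_pos.2 (hθ 2)
  refine ⟨2 * (10 ^ 11 * B ^ 10 * c ^ 4), fun μ m n hm hn a₀ a₁ a₂ => ?_⟩
  have hm' : (2 : ℝ) ≤ m := by exact_mod_cast hm
  have hn' : (2 : ℝ) ≤ n := by exact_mod_cast hn
  obtain ⟨e1, e2, e3⟩ := main_est hm' hn' F (κ := κ) hθ hB1 (c := c) (by linarith) (by linarith)
    (by linarith) L (fun k => ⟨integrable_pow (hm8 k) (by norm_num), hκ k⟩) μ a₀ a₁ a₂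
  refine ⟨e1 ▸ Amat_det (by linarith) (by linarith) hθ, e2, e3.trans ?_⟩
  have hmin : (0 : ℝ) < (min m n : ℕ) := by exact_mod_cast (by omega : 0 < min m n)
  have s1 : (√m)⁻¹ ≤ (√(min m n : ℕ))⁻¹ :=
    inv_anti₀ (Real.sqrt_pos.2 hmin) (Real.sqrt_le_sqrt (by exact_mod_cast min_le_left m n))
  have s2 : (√n)⁻¹ ≤ (√(min m n : ℕ))⁻¹ :=
    inv_anti₀ (Real.sqrt_pos.2 hmin) (Real.sqrt_le_sqrt (by exact_mod_cast min_le_right m n))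
  calc _ ≤ 10 ^ 11 * B ^ 10 * c ^ 4 * (∑ i, a₁ i ^ 2 + ∑ j, a₂ j ^ 2) *
        ((1 / (m * n ^ 2) + 1 / (m ^ 2 * n)) * ((√(min m n : ℕ))⁻¹ + (√(min m n : ℕ))⁻¹)) := by
        gcongr
    _ = _ := by ring
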